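import Pool.Agent.KDS.StmtsB

/-!
# Squad KDS, row QTD (the quadrics and the tropes of the double)

`f = (X² - s X + p)(X³ + c₂ X² + c₁ X + c₀)`, `s = a + b`, `p = a b`. In the parameters `s, p, c₀, c₁, c₂`
the identity `QQ² = (a - b)² (tau (dup u) - μ quart)` is small.
-/

set_option autoImplicit false
set_option maxRecDepth 100000

namespace Pool.Agent.KDS.H60

open Polynomial NumberField H58Q Pool.Agent.SZT Pool.Agent.KDT

variable {K : Type} [Field K]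

/-- the quadratic part of `QQ` without `u₃` -/
def NN (s p c0 c1 c2 u0 u1 u2 : K) : K :=
  c0 * c1 * s * u0 ^ 2 - 2 * c0 * c2 * p * u0 ^ 2 + c0 * c2 * s ^ 2 * u0 ^ 2
    - c0 * p * s * u0 ^ 2 - 2 * c0 * p * u0 * u1 - 2 * c0 * s * u0 * u2 - c0 * s * u1 ^ 2
    + 2 * c0 * s ^ 2 * u0 * u1 + 2 * c0 * u1 * u2 + c0 ^ 2 * u0 ^ 2
    + c1 * c2 * p * s * u0 ^ 2 + 2 * c1 * p * s * u0 * u1 - 2 * c1 * p * u0 * u2
    - c1 * p * u1 ^ 2 - c1 * p ^ 2 * u0 ^ 2 + c1 * u2 ^ 2 + c1 ^ 2 * p * u0 ^ 2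
    - 2 * c2 * p * u1 * u2 + 2 * c2 * p ^ 2 * u0 * u1 + c2 * s * u2 ^ 2
    + c2 ^ 2 * p ^ 2 * u0 ^ 2 - 2 * p * s * u1 * u2 - p * u2 ^ 2 + 2 * p ^ 2 * u0 * u2
    + p ^ 2 * u1 ^ 2 + s ^ 2 * u2 ^ 2

theorem key (f : K[X]) (u : Fin 4 → K) (s p c0 c1 c2 : K) (h4 : f.coeff 4 = c2 - s)
    (h3 : f.coeff 3 = c1 - s * c2 + p) (h2 : f.coeff 2 = c0 - s * c1 + p * c2)
    (h1 : f.coeff 1 = p * c1 - s * c0) (h0 : f.coeff 0 = p * c0) :
    (-(u 3 + (p * u 1 - s * u 2 + (c0 + c2 * p) * u 0)) ^ 2 +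
      NN s p c0 c1 c2 (u 0) (u 1) (u 2)) ^ 2 =
    dup3 f u - s * dup2 f u + p * dup1 f u + (c0 + c2 * p) * dup0 f u +
      (2 * c0 * s + 2 * c1 * p + 4 * p ^ 2) * quart f u := by
  unfold dup0 dup1 dup2 dup3 quart NN
  generalize u 0 = u0
  generalize u 1 = u1
  generalize u 2 = u2
  generalize u 3 = u3
  simp only [h4, h3, h2, h1, h0]
  ring

theorem evl (f : K[X]) (hm : f.Monic) (hd : f.natDegree = 5) (x : K) :
    f.eval x = x ^ 5 + f.coeff 4 * x ^ 4 + f.coeff 3 * x ^ 3 + f.coeff 2 * x ^ 2 +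
      f.coeff 1 * x + f.coeff 0 := by
  have h5 : f.coeff 5 = 1 := by rw [← hd]; exact hm.coeff_natDegree
  rw [Polynomial.eval_eq_sum_range, hd]
  simp only [Finset.sum_range_succ, Finset.sum_range_zero, h5]
  ring

theorem qq_eq (f : K[X]) (a b : K) (u : Fin 4 → K) : QQ f a b u =
    u 3 * (a ^ 2 * (b ^ 2 * u 0 - b * u 1 + u 2) - a * (mA f b * u 0 - b ^ 2 * u 1 + u 3) +
      (mB f b * u 0 - b ^ 2 * u 2 + b * u 3)) -
    u 0 * (mB f a * (mA f b * u 0 - b ^ 2 * u 1 + u 3) -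
      mA f a * (mB f b * u 0 - b ^ 2 * u 2 + b * u 3) +
      a ^ 2 * (mB f b * u 1 - mA f b * u 2 + b ^ 2 * u 3)) +
    u 1 * (mB f a * (b ^ 2 * u 0 - b * u 1 + u 2) -
      a ^ 2 * (mB f b * u 0 - b ^ 2 * u 2 + b * u 3) +
      a * (mB f b * u 1 - mA f b * u 2 + b ^ 2 * u 3)) -
    u 2 * (mA f a * (b ^ 2 * u 0 - b * u 1 + u 2) -
      a ^ 2 * (mA f b * u 0 - b ^ 2 * u 1 + u 3) +
      (mB f b * u 1 - mA f b * u 2 + b ^ 2 * u 3)) := rfl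

theorem qtd : QtdStatement := by
  intro K _ f a b u hmon hd ha hb hab hq
  have ea := evl f hmon hd a
  have eb := evl f hmon hd b
  rw [ha.eq_zero] at ea
  rw [hb.eq_zero] at eb
  have hab' : a - b ≠ 0 := sub_ne_zero.2 hab
  have h1 : f.coeff 1 = -(a ^ 4 + a ^ 3 * b + a ^ 2 * b ^ 2 + a * b ^ 3 + b ^ 4)
      - f.coeff 4 * (a ^ 3 + a ^ 2 * b + a * b ^ 2 + b ^ 3)
      - f.coeff 3 * (a ^ 2 + a * b + b ^ 2) - f.coeff 2 * (a + b) := by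
    refine mul_left_cancel₀ hab' ?_
    linear_combination eb - ea
  have h0 : f.coeff 0 = -a ^ 5 - f.coeff 4 * a ^ 4 - f.coeff 3 * a ^ 3 - f.coeff 2 * a ^ 2
      - f.coeff 1 * a := by
    linear_combination -ea
  obtain ⟨c2, hc2⟩ : ∃ c : K, c = f.coeff 4 + (a + b) := ⟨_, rfl⟩
  obtain ⟨c1, hc1⟩ : ∃ c : K, c = f.coeff 3 + (a + b) * c2 - a * b := ⟨_, rfl⟩
  obtain ⟨c0, hc0⟩ : ∃ c : K, c = f.coeff 2 + (a + b) * c1 - a * b * c2 := ⟨_, rfl⟩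
  have g4 : f.coeff 4 = c2 - (a + b) := by rw [hc2]; ring
  have g3 : f.coeff 3 = c1 - (a + b) * c2 + a * b := by rw [hc1]; ring
  have g2 : f.coeff 2 = c0 - (a + b) * c1 + a * b * c2 := by rw [hc0]; ring
  have g1 : f.coeff 1 = a * b * c1 - (a + b) * c0 := by
    rw [h1, g4, g3, g2]; ring
  have g0 : f.coeff 0 = a * b * c0 := by
    rw [h0, g1, g4, g3, g2]; ring
  have hk := key f u (a + b) (a * b) c0 c1 c2 g4 g3 g2 g1 g0
  rw [hq, mul_zero, add_zero] at hk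
  have hQ : QQ f a b u = (a - b) * (-(u 3 + (a * b * u 1 - (a + b) * u 2 +
      (c0 + c2 * (a * b)) * u 0)) ^ 2 + NN (a + b) (a * b) c0 c1 c2 (u 0) (u 1) (u 2)) := by
    rw [qq_eq, mA, mA, mB, mB, NN, g1, g4, g3, g2]
    ring
  have hG : GG f a b = c0 + c2 * (a * b) := by
    rw [GG, g4, g3, g2]; ring
  have htau : tau f a b (dup f u) =
      dup3 f u - (a + b) * dup2 f u + a * b * dup1 f u + GG f a b * dup0 f u := rfl
  rw [htau, hG, hQ, mul_pow, hk]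

end Pool.Agent.KDS.H60
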